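import Pool.Agent.Helper31.CY.St2

/-!
# Module LVL of project CY (MP_9583f0_gt): the network is between the two levels
-/

set_option autoImplicit false

open Set Topology Filter

namespace Pool.Agent.Helper97.CY

open Pool.Agent.Helper31.CY

private theorem catNear (hCTF : StCTF) (r m ε : ℝ) (hr : 0 ≤ r) (hε : 0 < ε) :
    ∃ η : ℝ, 0 < η ∧ η < ε ∧ |cat r m η - r| < ε ∧ |cat r m (-η) - r| < ε := by
  rcases hr.eq_or_lt with rfl | hr
  · refine ⟨ε / 2, by linarith, by linarith, ?_, ?_⟩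
    · simp [cat, hε]
    · simp [cat, hε]
  · obtain ⟨h0, -, -, hd, -⟩ := hCTF r m hr
    have hc : ContinuousAt (cat r m) 0 := (hd 0).continuousAt
    rw [Metric.continuousAt_iff] at hc
    obtain ⟨δ, hδ, hc⟩ := hc ε hε
    have hmin : 0 < min δ ε := lt_min hδ hε
    have h1 := min_le_left δ ε
    have h2 := min_le_right δ ε
    refine ⟨min δ ε / 2, by linarith, by linarith, ?_, ?_⟩
    · have h3 := hc (x := min δ ε / 2) (by
        rw [Real.dist_eq, sub_zero, abs_of_pos (by linarith)]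
        linarith)
      rwa [h0, Real.dist_eq] at h3
    · have h3 := hc (x := -(min δ ε / 2)) (by
        rw [Real.dist_eq, sub_zero, abs_neg, abs_of_pos (by linarith)]
        linarith)
      rwa [h0, Real.dist_eq] at h3

private theorem cat_updown (hCTF : StCTF) {N : Set (ℝ × ℝ)} {q : ℝ × ℝ} (hq : 0 ≤ q.1)
    (h : CatAt N q) : (∃ x ∈ N, q.2 < x.2) ∧ ∃ x ∈ N, x.2 < q.2 := by
  obtain ⟨m, ε, hε, hx⟩ := h
  obtain ⟨η, h1, h2, h3, h4⟩ := catNear hCTF q.1 m ε hq hε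
  constructor
  · refine ⟨(cat q.1 m η, q.2 + η), (hx _ ⟨h3, ?_⟩).2 ?_, ?_⟩
    · simpa [abs_of_pos h1] using h2
    · simp
    · simpa using h1
  · refine ⟨(cat q.1 m (-η), q.2 - η), (hx _ ⟨h4, ?_⟩).2 ?_, ?_⟩
    · simpa [abs_of_pos h1] using h2
    · simp
    · simpa using h1

private theorem y_updown (hCTF : StCTF) (hY3 : StY3) {N : Set (ℝ × ℝ)} {q : ℝ × ℝ}
    (hq : 0 ≤ q.1) (h : YAt N q) : (∃ x ∈ N, q.2 < x.2) ∧ ∃ x ∈ N, x.2 < q.2 := by
  obtain ⟨v, hv1, hv2, ε, hε, hx⟩ := h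
  obtain ⟨⟨i, hi⟩, ⟨j, hj⟩, -⟩ := hY3 v hv1 hv2
  constructor
  · obtain ⟨η, h1, h2, h3, h4⟩ := catNear hCTF q.1 ((v i).1 / (v i).2) ε hq hε
    refine ⟨(cat q.1 ((v i).1 / (v i).2) η, q.2 + η), (hx _ ⟨h3, ?_⟩).2 ⟨i, Or.inl ?_⟩, ?_⟩
    · simpa [abs_of_pos h1] using h2
    · refine ⟨hi, ?_, ?_⟩
      · simpa using h1.le
      · simp
    · simpa using h1
  · obtain ⟨η, h1, h2, h3, h4⟩ := catNear hCTF q.1 ((v j).1 / (v j).2) ε hq hε
    refine ⟨(cat q.1 ((v j).1 / (v j).2) (-η), q.2 - η),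
      (hx _ ⟨h4, ?_⟩).2 ⟨j, Or.inr (Or.inl ?_)⟩, ?_⟩
    · simpa [abs_of_pos h1] using h2
    · refine ⟨hj, ?_, ?_⟩
      · simpa using h1.le
      · simp
    · simpa using h1

theorem hLVL (hHGT : StHGT) (hCTF : StCTF) (hY3 : StY3) : StLVL := by
  intro N r0 r1 h hN
  obtain ⟨⟨q, hqN, hqX, hq1, hq2⟩, ⟨p, hpN, hpX, hp1, hp2⟩⟩ :=
    hHGT N r0 r1 h hN N {(r0, 0), (r1, h)} hN.cpt ⟨_, hN.q0⟩ (subset_refl _) (by
      intro x _ hxX
      simp only [mem_insert_iff, mem_singleton_iff, not_or] at hxX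
      exact ⟨hxX.1, hxX.2, 1, one_pos, fun y _ hy => hy⟩)
  have hh := hN.h0
  have hq : q = (r1, h) := by
    rcases hqX with rfl | hqX
    · exfalso
      have h1 := hq1 _ hN.q1
      simp only at h1
      linarith
    · exact hqX
  have hp : p = (r0, 0) := by
    rcases hpX with hpX | hpX
    · exact hpX
    · exfalso
      rw [mem_singleton_iff] at hpX
      subst hpX
      have h1 := hp1 _ hN.q0
      simp only at h1
      linarith
  subst hq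
  subst hp
  have hb : ∀ x ∈ N, 0 ≤ x.2 ∧ x.2 ≤ h := fun x hx => ⟨hp1 x hx, hq1 x hx⟩
  have hno : ∀ x ∈ N, (x.2 = 0 ∨ x.2 = h) → ¬ ((∃ y ∈ N, x.2 < y.2) ∧ ∃ y ∈ N, y.2 < x.2) := by
    rintro x hx (h0 | h0) ⟨⟨y, hy, hy1⟩, ⟨z, hz, hz1⟩⟩
    · have h1 := (hb z hz).1
      linarith
    · have h1 := (hb y hy).2
      linarith
  refine ⟨hb, fun x hx h0 => hp2 x hx h0, fun x hx h0 => hq2 x hx h0, ?_, ?_⟩
  · intro x hx hx0 hxl hx1 hx2
    rcases hN.int x hx hx1 hx2 hx0 with hc | hc | hc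
    · exact absurd (cat_updown hCTF hx0.le hc) (hno x hx hxl)
    · exact hc
    · exact absurd (y_updown hCTF hY3 hx0.le hc) (hno x hx hxl)
  · intro x hx hxl hc
    exact hno x hx hxl (y_updown hCTF hY3 (hN.nn x hx) hc)

end Pool.Agent.Helper97.CY
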